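import Mathlib

/-!
# A stepping-up colouring which is invariant under all isometries of an ultrametric space
-/

set_option autoImplicit false

namespace Pool.Agent.TH772.SY

open Finset

/-- An ultrametric on `V`, written with levels: `d x y` is the level at which `x` and `y` are
separated; `d x x = m`. -/
structure Lev (V : Type*) (m : ℕ) where
  d : V → V → ℕ
  symm : ∀ x y, d x y = d y x
  self : ∀ x, d x x = m
  lt : ∀ x y, x ≠ y → d x y < m
  ultra : ∀ x y z, min (d x y) (d y z) ≤ d x z

namespace Lev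

variable {V : Type*} {m : ℕ} (L : Lev V m)

def Bal0 (T : Finset V) : Prop := ∃ a ∈ T, ∃ a' ∈ T, ∃ b ∈ T, ∃ b' ∈ T, a ≠ a' ∧ b ≠ b' ∧
  L.d a b < L.d a a' ∧ L.d a b < L.d b b'

def Tri0 (T : Finset V) : Prop := ∃ a ∈ T, ∃ b ∈ T, ∃ e ∈ T, a ≠ b ∧ L.d a b = L.d b e ∧
  L.d a b = L.d a e

def Comb (T : Finset V) : Prop := ¬ L.Bal0 T ∧ ¬ L.Tri0 T

def Tri (T : Finset V) : Prop := ∃ a ∈ T, ∃ b ∈ T, ∃ e ∈ T, a ≠ b ∧ L.d a b = L.d b e ∧
  L.d a b = L.d a e ∧ ∀ x ∈ T, ∀ y ∈ T, L.d a b ≤ L.d x y

def Bal (T : Finset V) : Prop := ∃ a ∈ T, ∃ a' ∈ T, ∃ b ∈ T, ∃ b' ∈ T, a ≠ a' ∧ b ≠ b' ∧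
  L.d a b < L.d a a' ∧ L.d a b < L.d b b' ∧ ∀ x ∈ T, ∀ y ∈ T, L.d a b ≤ L.d x y

def Sing (T : Finset V) : Prop := ∃ x ∈ T, ∀ y ∈ T, ∀ z ∈ T, y ≠ x → z ≠ x → L.d x y < L.d y z

/-- the levels of a set -/
def lev (T : Finset V) : Finset ℕ := ((T ×ˢ T).image (fun p => L.d p.1 p.2)).erase m

open Classical in
/-- the colouring -/
noncomputable def col (χ : Finset ℕ → Bool) (T : Finset V) : Bool :=
  if L.Comb T then χ (L.lev T) else if L.Tri T then decide (L.Bal T) else decide (L.Sing T)

/-- the width: equilateral sets have at most `K` points -/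
def Width (K : ℕ) : Prop := ∀ (S : Finset V) (e : ℕ),
  (∀ x ∈ S, ∀ y ∈ S, x ≠ y → L.d x y = e) → S.card ≤ K

theorem le (x y : V) : L.d x y ≤ m := by
  by_cases h : x = y
  · rw [h, L.self]
  · exact (L.lt x y h).le

theorem ne_of_lt {x y : V} (h : L.d x y < m) : x ≠ y := by
  rintro rfl
  rw [L.self] at h
  exact lt_irrefl _ h

theorem mem_lev {T : Finset V} {i : ℕ} : i ∈ L.lev T ↔ ∃ x ∈ T, ∃ y ∈ T, x ≠ y ∧ L.d x y = i := by
  unfold lev
  rw [mem_erase, mem_image]
  constructor
  · rintro ⟨h, ⟨x, y⟩, hp, h1⟩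
    rw [mem_product] at hp
    refine ⟨x, hp.1, y, hp.2, ?_, h1⟩
    rintro rfl
    apply h
    rw [← h1]
    exact L.self _
  · rintro ⟨x, hx, y, hy, hne, h1⟩
    refine ⟨?_, ⟨x, y⟩, mem_product.2 ⟨hx, hy⟩, h1⟩
    rw [← h1]
    exact (L.lt x y hne).ne

theorem lev_lt {T : Finset V} {i : ℕ} (h : i ∈ L.lev T) : i < m := by
  obtain ⟨x, -, y, -, hne, rfl⟩ := L.mem_lev.1 h
  exact L.lt x y hne

theorem lev_mono {S T : Finset V} (h : S ⊆ T) : L.lev S ⊆ L.lev T := by
  intro i hi
  obtain ⟨x, hx, y, hy, h1⟩ := L.mem_lev.1 hi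
  exact L.mem_lev.2 ⟨x, h hx, y, h hy, h1⟩

theorem Comb.mono {S T : Finset V} (h : S ⊆ T) (hT : L.Comb T) : L.Comb S := by
  refine ⟨?_, ?_⟩
  · rintro ⟨a, ha, a', ha', b, hb, b', hb', h1⟩
    exact hT.1 ⟨a, h ha, a', h ha', b, h hb, b', h hb', h1⟩
  · rintro ⟨a, ha, b, hb, e, he, h1⟩
    exact hT.2 ⟨a, h ha, b, h hb, e, h he, h1⟩

theorem col_sing {χ : Finset ℕ → Bool} {T : Finset V} (h1 : ¬ L.Comb T) (h2 : ¬ L.Tri T)
    (h3 : L.Sing T) : L.col χ T = true := by
  unfold col
  rw [if_neg h1, if_neg h2]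
  simpa using h3

theorem col_not_sing {χ : Finset ℕ → Bool} {T : Finset V} (h1 : ¬ L.Comb T) (h2 : ¬ L.Tri T)
    (h3 : ¬ L.Sing T) : L.col χ T = false := by
  unfold col
  rw [if_neg h1, if_neg h2]
  simpa using h3

theorem col_bal {χ : Finset ℕ → Bool} {T : Finset V} (h1 : ¬ L.Comb T) (h2 : L.Tri T)
    (h3 : L.Bal T) : L.col χ T = true := by
  unfold col
  rw [if_neg h1, if_pos h2]
  simpa using h3

theorem col_not_bal {χ : Finset ℕ → Bool} {T : Finset V} (h1 : ¬ L.Comb T) (h2 : L.Tri T)
    (h3 : ¬ L.Bal T) : L.col χ T = false := by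
  unfold col
  rw [if_neg h1, if_pos h2]
  simpa using h3

/-- a pair of minimal level -/
theorem exists_min {S : Finset V} (h : 2 ≤ S.card) : ∃ a ∈ S, ∃ b ∈ S, a ≠ b ∧
    ∀ x ∈ S, ∀ y ∈ S, L.d a b ≤ L.d x y := by
  obtain ⟨p, q, hp, hq, hpq⟩ := Finset.one_lt_card_iff.1 (show 1 < S.card by omega)
  obtain ⟨⟨a, b⟩, hab, hmin⟩ := Finset.exists_min_image (S ×ˢ S) (fun p => L.d p.1 p.2)
    ⟨(p, q), mem_product.2 ⟨hp, hq⟩⟩
  rw [mem_product] at hab
  have h1 : ∀ x ∈ S, ∀ y ∈ S, L.d a b ≤ L.d x y := fun x hx y hy =>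
    hmin (x, y) (mem_product.2 ⟨hx, hy⟩)
  exact ⟨a, hab.1, b, hab.2, L.ne_of_lt ((h1 p hp q hq).trans_lt (L.lt p q hpq)), h1⟩

theorem comb_peel {S : Finset V} (hS : L.Comb S) (h2 : 2 ≤ S.card) :
    ∃ x ∈ S, ∃ e < m, (∀ y ∈ S, y ≠ x → L.d x y = e) ∧
      ∀ y ∈ S, ∀ z ∈ S, y ≠ x → z ≠ x → e < L.d y z := by
  obtain ⟨a, ha, b, hb, hab, hmin⟩ := L.exists_min h2
  have key : ∀ x ∈ S, (∀ y ∈ S, y ≠ x → L.d x y ≤ L.d a b) →
      (∀ y ∈ S, y ≠ x → L.d x y = L.d a b) ∧
        ∀ y ∈ S, ∀ z ∈ S, y ≠ x → z ≠ x → L.d a b < L.d y z := by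
    intro x hx h
    have h1 : ∀ y ∈ S, y ≠ x → L.d x y = L.d a b := fun y hy hyx =>
      le_antisymm (h y hy hyx) (hmin x hx y hy)
    refine ⟨h1, fun y hy z hz hyx hzx => ?_⟩
    refine lt_of_le_of_ne (hmin y hy z hz) fun h3 => ?_
    refine hS.2 ⟨x, hx, y, hy, z, hz, fun h => hyx h.symm, ?_, ?_⟩
    · rw [h1 y hy hyx, h3]
    · rw [h1 y hy hyx, h1 z hz hzx]
  by_cases hA : ∃ a' ∈ S, a ≠ a' ∧ L.d a b < L.d a a'
  · obtain ⟨a', ha', hne, hlt⟩ := hA
    refine ⟨b, hb, L.d a b, L.lt a b hab, key b hb fun y hy hyb => ?_⟩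
    by_contra hcon
    exact hS.1 ⟨a, ha, a', ha', b, hb, y, hy, hne, fun h => hyb h.symm, hlt, by omega⟩
  · refine ⟨a, ha, L.d a b, L.lt a b hab, key a ha fun y hy hya => ?_⟩
    by_contra hcon
    exact hA ⟨y, hy, fun h => hya h.symm, by omega⟩

theorem lev_insert [DecidableEq V] {T : Finset V} {x : V} {e : ℕ} (hT : T.Nonempty) (hx : x ∉ T)
    (h : ∀ y ∈ T, L.d x y = e) : L.lev (insert x T) = insert e (L.lev T) := by
  ext i
  rw [mem_insert, L.mem_lev, L.mem_lev]
  constructor
  · rintro ⟨y, hy, z, hz, hne, h1⟩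
    rcases mem_insert.1 hy with hyx | hyT
    · rcases mem_insert.1 hz with hzx | hzT
      · exact absurd (hyx.trans hzx.symm) hne
      · left; rw [← h1, hyx, h z hzT]
    · rcases mem_insert.1 hz with hzx | hzT
      · left; rw [← h1, hzx, L.symm, h y hyT]
      · right; exact ⟨y, hyT, z, hzT, hne, h1⟩
  · rintro (rfl | ⟨y, hy, z, hz, h1⟩)
    · obtain ⟨y, hy⟩ := hT
      refine ⟨x, mem_insert_self _ _, y, mem_insert_of_mem hy, ?_, h y hy⟩
      rintro rfl
      exact hx hy
    · exact ⟨y, mem_insert_of_mem hy, z, mem_insert_of_mem hz, h1⟩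

theorem comb_levels (N : ℕ) : ∀ S : Finset V, S.card = N + 1 → L.Comb S → (L.lev S).card = N ∧
    ∀ B ⊆ L.lev S, ∃ T ⊆ S, T.card = B.card + 1 ∧ L.lev T = B := by
  classical
  induction N with
  | zero =>
    intro S hS _
    obtain ⟨x, rfl⟩ := Finset.card_eq_one.1 hS
    have h0 : L.lev {x} = ∅ := by
      rw [Finset.eq_empty_iff_forall_notMem]
      intro i hi
      obtain ⟨y, hy, z, hz, hne, -⟩ := L.mem_lev.1 hi
      rw [mem_singleton] at hy hz
      exact hne (hy.trans hz.symm)
    rw [h0]
    refine ⟨rfl, fun B hB => ⟨{x}, Subset.rfl, ?_, ?_⟩⟩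
    · rw [subset_empty.1 hB]; rfl
    · rw [subset_empty.1 hB]; exact h0
  | succ N ih =>
    intro S hS hc
    obtain ⟨x, hx, e, hem, h1, h2⟩ := L.comb_peel hc (by omega)
    have hc' : L.Comb (S.erase x) := Comb.mono L (erase_subset _ _) hc
    have hcard : (S.erase x).card = N + 1 := by rw [card_erase_of_mem hx]; omega
    obtain ⟨g1, g2⟩ := ih (S.erase x) hcard hc'
    have hne : (S.erase x).Nonempty := card_pos.1 (by omega)
    have hlev : L.lev S = insert e (L.lev (S.erase x)) := by
      conv_lhs => rw [← insert_erase hx]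
      exact L.lev_insert hne (notMem_erase _ _) fun y hy => h1 y (mem_of_mem_erase hy)
        (ne_of_mem_erase hy)
    have hnot : e ∉ L.lev (S.erase x) := by
      intro h
      obtain ⟨y, hy, z, hz, -, h3⟩ := L.mem_lev.1 h
      have := h2 y (mem_of_mem_erase hy) z (mem_of_mem_erase hz) (ne_of_mem_erase hy)
        (ne_of_mem_erase hz)
      omega
    refine ⟨by rw [hlev, card_insert_of_notMem hnot, g1], fun B hB => ?_⟩
    by_cases he : e ∈ B
    · obtain ⟨T, hT, hTc, hTl⟩ := g2 (B.erase e) (by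
        intro i hi
        have h3 := hB (mem_of_mem_erase hi)
        rw [hlev, mem_insert] at h3
        exact h3.resolve_left (ne_of_mem_erase hi))
      have hxT : x ∉ T := fun h => notMem_erase x S (hT h)
      have hTne : T.Nonempty := card_pos.1 (by omega)
      refine ⟨insert x T, insert_subset hx (hT.trans (erase_subset _ _)), ?_, ?_⟩
      · have := card_erase_of_mem he
        have := card_pos.2 ⟨e, he⟩
        rw [card_insert_of_notMem hxT, hTc]
        omega
      · rw [L.lev_insert hTne hxT fun y hy => h1 y (mem_of_mem_erase (hT hy))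
          (ne_of_mem_erase (hT hy)), hTl, insert_erase he]
    · obtain ⟨T, hT, hTc, hTl⟩ := g2 B (by
        intro i hi
        have h3 := hB hi
        rw [hlev, mem_insert] at h3
        refine h3.resolve_left ?_
        rintro rfl
        exact he hi)
      exact ⟨T, hT.trans (erase_subset _ _), hTc, hTl⟩

/-- `χ` has no homogeneous set of size `n` below `m`. -/
def NoHom (χ : Finset ℕ → Bool) (m r n : ℕ) : Prop :=
  ∀ A ⊆ range m, A.card = n → ∀ b : Bool, ∃ B ⊆ A, B.card = r ∧ χ B ≠ b

theorem no_comb {χ : Finset ℕ → Bool} {r n : ℕ} (hχ : NoHom χ m r n) {S : Finset V} {b : Bool}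
    (hS : ∀ T ⊆ S, T.card = r + 1 → L.col χ T = b) {C : Finset V} (hCS : C ⊆ S) (hC : L.Comb C) :
    C.card ≤ n := by
  by_contra hcon
  obtain ⟨C', hC', hcard⟩ := Finset.exists_subset_card_eq (show n + 1 ≤ C.card by omega)
  have hc' : L.Comb C' := Comb.mono L hC' hC
  obtain ⟨g1, g2⟩ := L.comb_levels n C' hcard hc'
  obtain ⟨B, hB, hBc, hBb⟩ := hχ (L.lev C') (fun i hi => mem_range.2 (L.lev_lt hi)) g1 b
  obtain ⟨T, hT, hTc, hTl⟩ := g2 B hB
  have h1 := hS T (hT.trans (hC'.trans hCS)) (by omega)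
  unfold col at h1
  rw [if_pos (Comb.mono L hT hc'), hTl] at h1
  exact hBb h1

theorem comb_insert [DecidableEq V] {C : Finset V} (hC : L.Comb C) (hne : C.Nonempty) {z : V}
    {e : ℕ} (h1 : ∀ y ∈ C, L.d z y = e) (h2 : ∀ y ∈ C, ∀ y' ∈ C, e < L.d y y') :
    L.Comb (insert z C) := by
  obtain ⟨y0, hy0⟩ := hne
  have hem : e < m := by
    have := h2 y0 hy0 y0 hy0
    rwa [L.self] at this
  have h3 : ∀ p ∈ insert z C, ∀ q ∈ insert z C, e ≤ L.d p q := by
    intro p hp q hq
    rcases mem_insert.1 hp with rfl | hp'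
    · rcases mem_insert.1 hq with rfl | hq'
      · rw [L.self]; exact hem.le
      · rw [h1 q hq']
    · rcases mem_insert.1 hq with rfl | hq'
      · rw [L.symm, h1 p hp']
      · exact (h2 p hp' q hq').le
  have h4 : ∀ p ∈ insert z C, ∀ q ∈ insert z C, p ≠ q → e < L.d p q → p ∈ C ∧ q ∈ C := by
    intro p hp q hq hpq hlt
    rcases mem_insert.1 hp with hp' | hp'
    · rcases mem_insert.1 hq with hq' | hq'
      · exact absurd (hp'.trans hq'.symm) hpq
      · rw [hp', h1 q hq'] at hlt
        exact absurd hlt (lt_irrefl _)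
    · rcases mem_insert.1 hq with hq' | hq'
      · rw [hq', L.symm, h1 p hp'] at hlt
        exact absurd hlt (lt_irrefl _)
      · exact ⟨hp', hq'⟩
  refine ⟨?_, ?_⟩
  · rintro ⟨a, ha, a', ha', b, hb, b', hb', n1, n2, l1, l2⟩
    have g1 := h4 a ha a' ha' n1 ((h3 a ha b hb).trans_lt l1)
    have g2 := h4 b hb b' hb' n2 ((h3 a ha b hb).trans_lt l2)
    exact hC.1 ⟨a, g1.1, a', g1.2, b, g2.1, b', g2.2, n1, n2, l1, l2⟩
  · rintro ⟨a, ha, b, hb, c, hc, n1, l1, l2⟩
    have hlt := L.lt a b n1
    have n2 : b ≠ c := L.ne_of_lt (l1 ▸ hlt)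
    have n3 : a ≠ c := L.ne_of_lt (l2 ▸ hlt)
    by_cases ha' : a ∈ C
    · by_cases hb' : b ∈ C
      · have h5 := h2 a ha' b hb'
        have g := h4 b hb c hc n2 (l1 ▸ h5)
        exact hC.2 ⟨a, ha', b, hb', c, g.2, n1, l1, l2⟩
      · have hbz : b = z := (mem_insert.1 hb).resolve_right hb'
        have hcC : c ∈ C := (mem_insert.1 hc).resolve_left fun h => n2 (hbz.trans h.symm)
        have h5 := h2 a ha' c hcC
        rw [← l2] at h5
        exact hb' (h4 a ha b hb n1 h5).2
    · have haz : a = z := (mem_insert.1 ha).resolve_right ha'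
      have hbC : b ∈ C := (mem_insert.1 hb).resolve_left fun h => n1 (haz.trans h.symm)
      have hcC : c ∈ C := (mem_insert.1 hc).resolve_left fun h => n3 (haz.trans h.symm)
      have h5 := h2 b hbC c hcC
      rw [← l1] at h5
      exact ha' (h4 a ha b hb n1 h5).1

/-- a set which is no comb contains a set of at most four points which is no comb -/
theorem not_comb [DecidableEq V] {C : Finset V} (h : ¬ L.Comb C) : ∃ Q ⊆ C, Q.card ≤ 4 ∧
    ¬ L.Comb Q := by
  unfold Comb at h
  rw [not_and_or, not_not, not_not] at h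
  rcases h with ⟨a, ha, a', ha', b, hb, b', hb', h1⟩ | ⟨a, ha, b, hb, c, hc, h1⟩
  · refine ⟨{a, a', b, b'}, ?_, card_le_four, fun h => h.1 ⟨a, by simp, a', by simp, b, by simp,
      b', by simp, h1⟩⟩
    intro x hx
    simp only [mem_insert, mem_singleton] at hx
    rcases hx with rfl | rfl | rfl | rfl <;> assumption
  · refine ⟨{a, b, c}, ?_, card_le_three.trans (by norm_num), fun h => h.2 ⟨a, by simp, b, by simp,
      c, by simp, h1⟩⟩
    intro x hx
    simp only [mem_insert, mem_singleton] at hx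
    rcases hx with rfl | rfl | rfl <;> assumption

variable {L}

/-- the class of `x` at the level `e` -/
def cls [DecidableEq V] (L : Lev V m) (S : Finset V) (e : ℕ) (x : V) : Finset V :=
  S.filter (fun y => e < L.d x y)

theorem mem_cls [DecidableEq V] {S : Finset V} {e : ℕ} {x y : V} :
    y ∈ L.cls S e x ↔ y ∈ S ∧ e < L.d x y := by
  unfold cls
  rw [mem_filter]

theorem lt_trans' {e : ℕ} {x y z : V} (h1 : e < L.d x y) (h2 : e < L.d y z) : e < L.d x z :=
  (lt_min h1 h2).trans_le (L.ultra x y z)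

/-- Colour `false`: the classes of the minimal level have less than `n` points. -/
theorem false_class [DecidableEq V] {χ : Finset ℕ → Bool} {r n : ℕ} (hr : 4 ≤ r)
    (hχ : NoHom χ m r n) {S : Finset V} (hS : ∀ T ⊆ S, T.card = r + 1 → L.col χ T = false)
    {a b : V} (ha : a ∈ S) (hb : b ∈ S) (hmin : ∀ x ∈ S, ∀ y ∈ S, L.d a b ≤ L.d x y)
    {x : V} (hxr : r ≤ (L.cls S (L.d a b) x).card) :
    (L.cls S (L.d a b) x).card < n := by
  set e := L.d a b with he
  set C := L.cls S e x with hC
  have hCin : ∀ y ∈ C, ∀ y' ∈ C, e < L.d y y' := by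
    intro y hy y' hy'
    have h1 := (mem_cls.1 hy).2
    rw [L.symm] at h1
    exact lt_trans' h1 (mem_cls.1 hy').2
  -- a point outside
  obtain ⟨z, hz, hzC⟩ : ∃ z ∈ S, z ∉ C := by
    by_contra hcon
    push Not at hcon
    exact lt_irrefl _ (hCin a (hcon a ha) b (hcon b hb))
  have hzy : ∀ y ∈ C, L.d z y = e := by
    intro y hy
    refine le_antisymm ?_ (hmin z hz y (mem_cls.1 hy).1)
    by_contra hcon
    apply hzC
    rw [hC, mem_cls]
    refine ⟨hz, lt_trans' (mem_cls.1 hy).2 ?_⟩
    rw [L.symm]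
    omega
  have hCne : C.Nonempty := card_pos.1 (by omega)
  -- `C` is a comb
  have hcomb : L.Comb C := by
    by_contra hcon
    obtain ⟨Q, hQC, hQ4, hQ⟩ := L.not_comb hcon
    obtain ⟨Q', hQQ', hQ'C, hQ'⟩ := Finset.exists_subsuperset_card_eq hQC (show Q.card ≤ r by omega)
      hxr
    have hzQ' : z ∉ Q' := fun h => hzC (hQ'C h)
    have hT := hS (insert z Q') (insert_subset hz fun y hy => (mem_cls.1 (hQ'C hy)).1)
      (by rw [card_insert_of_notMem hzQ', hQ'])
    have n1 : ¬ L.Comb (insert z Q') := fun h => hQ (Comb.mono L (hQQ'.trans (subset_insert _ _)) h)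
    have hQ'ne : Q'.Nonempty := card_pos.1 (by omega)
    have n2 : ¬ L.Tri (insert z Q') := by
      rintro ⟨p, hp, q, hq, s, hs, hpq, l1, l2, hm⟩
      obtain ⟨y, hy⟩ := hQ'ne
      have h1 := hm z (mem_insert_self _ _) y (mem_insert_of_mem hy)
      rw [hzy y (hQ'C hy)] at h1
      have hlt := L.lt p q hpq
      have n2 : q ≠ s := L.ne_of_lt (l1 ▸ hlt)
      have n3 : p ≠ s := L.ne_of_lt (l2 ▸ hlt)
      by_cases hp' : p ∈ Q'
      · by_cases hq' : q ∈ Q'
        · have := hCin p (hQ'C hp') q (hQ'C hq')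
          omega
        · have hqz : q = z := (mem_insert.1 hq).resolve_right hq'
          have hs' : s ∈ Q' := (mem_insert.1 hs).resolve_left fun h => n2 (hqz.trans h.symm)
          have := hCin p (hQ'C hp') s (hQ'C hs')
          omega
      · have hpz : p = z := (mem_insert.1 hp).resolve_right hp'
        have hs' : s ∈ Q' := (mem_insert.1 hs).resolve_left fun h => n3 (hpz.trans h.symm)
        have hq' : q ∈ Q' := (mem_insert.1 hq).resolve_left fun h => hpq (hpz.trans h.symm)
        have := hCin q (hQ'C hq') s (hQ'C hs')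
        omega
    have n3 : L.Sing (insert z Q') := by
      refine ⟨z, mem_insert_self _ _, fun y hy y' hy' h1 h2 => ?_⟩
      have g1 := (mem_insert.1 hy).resolve_left h1
      have g2 := (mem_insert.1 hy').resolve_left h2
      rw [hzy y (hQ'C g1)]
      exact hCin y (hQ'C g1) y' (hQ'C g2)
    rw [L.col_sing n1 n2 n3] at hT
    exact Bool.noConfusion hT
  have h1 := L.no_comb hχ hS (C := insert z C)
    (insert_subset hz fun y hy => (mem_cls.1 hy).1) (L.comb_insert hcomb hCne hzy hCin)
  rw [card_insert_of_notMem hzC] at h1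
  omega

theorem false_bound [DecidableEq V] {χ : Finset ℕ → Bool} {r n K : ℕ} (hr : 4 ≤ r) (hrn : r ≤ n)
    (hK : L.Width K) (hχ : NoHom χ m r n) {S : Finset V}
    (hS : ∀ T ⊆ S, T.card = r + 1 → L.col χ T = false) : S.card < n + max n K := by
  by_contra hcon
  push Not at hcon
  have hs1 : 2 * n ≤ S.card := by have := le_max_left n K; omega
  have hs2 : n + K ≤ S.card := by have := le_max_right n K; omega
  obtain ⟨a, ha, b, hb, hab, hmin⟩ := L.exists_min (S := S) (by omega)
  have hcl : ∀ x ∈ S, (L.cls S (L.d a b) x).card < n := by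
    intro x hx
    by_cases h : r ≤ (L.cls S (L.d a b) x).card
    · exact false_class hr hχ hS ha hb hmin h
    · omega
  set e := L.d a b with he
  by_cases hthird : ∃ c ∈ S, L.d a c = e ∧ L.d b c = e
  · obtain ⟨c, hc, hac, hbc⟩ := hthird
    -- at most one nontrivial class
    have huniq : ∀ x ∈ S, ∀ x' ∈ S, ∀ y ∈ S, ∀ y' ∈ S, x ≠ x' → y ≠ y' → e < L.d x x' →
        e < L.d y y' → e < L.d x y := by
      intro x hx x' hx' y hy y' hy' n1 n2 l1 l2
      by_contra hxy
      have hxy' : L.d x y = e := le_antisymm (by omega) (hmin x hx y hy)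
      -- a third class
      obtain ⟨w, hw, hwx, hwy⟩ : ∃ w ∈ S, L.d w x = e ∧ L.d w y = e := by
        have three : ∀ w ∈ S, (L.d w x ≤ e ∧ L.d w y ≤ e) → L.d w x = e ∧ L.d w y = e :=
          fun w hw h => ⟨le_antisymm h.1 (hmin w hw x hx), le_antisymm h.2 (hmin w hw y hy)⟩
        by_contra hno
        push Not at hno
        have hor : ∀ w ∈ S, e < L.d w x ∨ e < L.d w y := by
          intro w hw
          by_contra h
          push Not at h
          exact hno w hw (three w hw h).1 (three w hw h).2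
        -- pigeonhole among a, b, c
        have hbad : ∀ p ∈ S, ∀ q ∈ S, ∀ u ∈ S, L.d p q = e → e < L.d p u → e < L.d q u → False := by
          intro p _ q _ u _ h h1 h2
          rw [L.symm q u] at h2
          have := lt_trans' h1 h2
          omega
        rcases hor a ha with h1 | h1 <;> rcases hor b hb with h2 | h2 <;>
          rcases hor c hc with h3 | h3
        · exact hbad a ha b hb x hx he.symm h1 h2
        · exact hbad a ha b hb x hx he.symm h1 h2
        · exact hbad a ha c hc x hx hac h1 h3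
        · exact hbad b hb c hc y hy hbc h2 h3
        · exact hbad b hb c hc x hx hbc h2 h3
        · exact hbad a ha c hc y hy hac h1 h3
        · exact hbad a ha b hb y hy he.symm h1 h2
        · exact hbad a ha b hb y hy he.symm h1 h2
      -- the set of five points
      have hQS : ({x, x', y, y', w} : Finset V) ⊆ S := by
        intro p hp
        simp only [mem_insert, mem_singleton] at hp
        rcases hp with rfl | rfl | rfl | rfl | rfl <;> assumption
      obtain ⟨T, hQT, hTS, hT⟩ := Finset.exists_subsuperset_card_eq hQS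
        (show ({x, x', y, y', w} : Finset V).card ≤ r + 1 from card_le_five.trans (by omega))
        (show r + 1 ≤ S.card by omega)
      have hxT : x ∈ T := hQT (by simp)
      have hxT' : x' ∈ T := hQT (by simp)
      have hyT : y ∈ T := hQT (by simp)
      have hyT' : y' ∈ T := hQT (by simp)
      have hwT : w ∈ T := hQT (by simp)
      have hminT : ∀ p ∈ T, ∀ q ∈ T, L.d x y ≤ L.d p q := fun p hp q hq => by
        rw [hxy']; exact hmin p (hTS hp) q (hTS hq)
      have g1 : ¬ L.Comb T := fun h => h.1 ⟨x, hxT, x', hxT', y, hyT, y', hyT', n1, n2,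
        by rw [hxy']; exact l1, by rw [hxy']; exact l2⟩
      have hne : x ≠ y := by
        rintro rfl
        rw [L.self] at hxy'
        have := L.lt a b hab
        omega
      have g2 : L.Tri T := ⟨x, hxT, y, hyT, w, hwT, hne, by rw [hxy', L.symm, hwy],
        by rw [hxy', L.symm, hwx], hminT⟩
      have g3 : L.Bal T := ⟨x, hxT, x', hxT', y, hyT, y', hyT', n1, n2,
        by rw [hxy']; exact l1, by rw [hxy']; exact l2, hminT⟩
      have := hS T hTS hT
      rw [L.col_bal g1 g2 g3] at this
      exact Bool.noConfusion this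
    by_cases hnt : ∃ x ∈ S, ∃ x' ∈ S, x ≠ x' ∧ e < L.d x x'
    · obtain ⟨x, hx, x', hx', hne, hlt⟩ := hnt
      -- the complement of the class, with `x`, is equilateral
      have h1 := hK (insert x (S \ L.cls S e x)) e (by
        intro p hp q hq hpq
        have hpS : p ∈ S := by
          rcases mem_insert.1 hp with rfl | h
          · exact hx
          · exact (mem_sdiff.1 h).1
        have hqS : q ∈ S := by
          rcases mem_insert.1 hq with rfl | h
          · exact hx
          · exact (mem_sdiff.1 h).1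
        refine le_antisymm ?_ (hmin p hpS q hqS)
        by_contra hlt'
        push Not at hlt'
        have hxx : ∀ u ∈ S, e < L.d x u → u ∈ insert x (S \ L.cls S e x) → u = x := by
          intro u hu h h'
          rcases mem_insert.1 h' with h'' | h''
          · exact h''
          · exact absurd (mem_cls.2 ⟨hu, h⟩) (mem_sdiff.1 h'').2
        have k1 := huniq x hx x' hx' p hpS q hqS hne hpq hlt hlt'
        have k2 := lt_trans' k1 hlt'
        exact hpq ((hxx p hpS k1 hp).trans (hxx q hqS k2 hq).symm))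
      have hxc : x ∈ L.cls S e x := mem_cls.2 ⟨hx, by
        rw [L.self]; exact L.lt a b hab⟩
      rw [card_insert_of_notMem (fun h => (mem_sdiff.1 h).2 hxc)] at h1
      have h2 : (S \ L.cls S e x).card + (L.cls S e x).card = S.card :=
        card_sdiff_add_card_eq_card (filter_subset _ _)
      have := hcl x hx
      omega
    · push Not at hnt
      have := hK S e fun p hp q hq hpq => le_antisymm (hnt p hp q hq hpq) (hmin p hp q hq)
      omega
  · push Not at hthird
    have hcov : S ⊆ L.cls S e a ∪ L.cls S e b := by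
      intro x hx
      rw [mem_union, mem_cls, mem_cls]
      by_cases h : e < L.d a x
      · exact Or.inl ⟨hx, h⟩
      · right
        refine ⟨hx, lt_of_le_of_ne (hmin b hb x hx) (Ne.symm (hthird x hx ?_))⟩
        exact le_antisymm (by omega) (hmin a ha x hx)
    have h1 := (card_le_card hcov).trans (card_union_le _ _)
    have := hcl a ha
    have := hcl b hb
    omega

theorem comb_singleton (x : V) : L.Comb {x} := by
  refine ⟨?_, ?_⟩
  · rintro ⟨a, ha, a', ha', -, -, -, -, h, -⟩
    rw [mem_singleton] at ha ha'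
    exact h (ha.trans ha'.symm)
  · rintro ⟨a, ha, a', ha', -, -, h, -⟩
    rw [mem_singleton] at ha ha'
    exact h (ha.trans ha'.symm)

/-- Colour `true`: large subsets split off a point. -/
theorem true_peel [DecidableEq V] {χ : Finset ℕ → Bool} {r : ℕ} (hr : 4 ≤ r)
    {S : Finset V} (hS : ∀ T ⊆ S, T.card = r + 1 → L.col χ T = true) (hbig : (r + 1) ^ 2 < S.card) :
    ∃ x ∈ S, ∃ e < m, (∀ y ∈ S, y ≠ x → L.d x y = e) ∧
      ∀ y ∈ S, ∀ z ∈ S, y ≠ x → z ≠ x → e < L.d y z := by
  have hr1 : r + 1 ≤ S.card := by nlinarith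
  obtain ⟨a, ha, b, hb, hab, hmin⟩ := L.exists_min (S := S) (by omega)
  have hem : L.d a b < m := L.lt a b hab
  set e := L.d a b with he
  by_cases hcase : ∃ x ∈ S, ∃ x' ∈ S, ∃ y ∈ S, ∃ y' ∈ S, x ≠ x' ∧ y ≠ y' ∧ e < L.d x x' ∧
      e < L.d y y' ∧ L.d x y = e
  · exfalso
    obtain ⟨x, hx, x', hx', y, hy, y', hy', n1, n2, l1, l2, hxy⟩ := hcase
    -- two nontrivial classes are small
    have hsmall : ∀ p ∈ S, ∀ p' ∈ S, ∀ q ∈ S, ∀ q' ∈ S, p ≠ p' → q ≠ q' → e < L.d p p' →
        e < L.d q q' → L.d p q = e → (L.cls S e p).card ≤ r := by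
      intro p hp p' hp' q hq q' hq' m1 m2 k1 k2 hpq
      by_contra hcon
      push Not at hcon
      have hpc : p ∈ L.cls S e p := mem_cls.2 ⟨hp, by rw [L.self]; exact hem⟩
      have hpc' : p' ∈ L.cls S e p := mem_cls.2 ⟨hp', k1⟩
      have hqc : q ∈ L.cls S e q := mem_cls.2 ⟨hq, by rw [L.self]; exact hem⟩
      have hqc' : q' ∈ L.cls S e q := mem_cls.2 ⟨hq', k2⟩
      have hQU : ({p, p', q, q'} : Finset V) ⊆ L.cls S e p ∪ L.cls S e q := by
        intro z hz
        simp only [mem_insert, mem_singleton] at hz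
        rcases hz with rfl | rfl | rfl | rfl
        · exact mem_union_left _ hpc
        · exact mem_union_left _ hpc'
        · exact mem_union_right _ hqc
        · exact mem_union_right _ hqc'
      obtain ⟨T, hQT, hTU, hT⟩ := Finset.exists_subsuperset_card_eq hQU
        (show ({p, p', q, q'} : Finset V).card ≤ r + 1 from card_le_four.trans (by omega))
        (show r + 1 ≤ _ from le_trans (show r + 1 ≤ (L.cls S e p).card by omega)
          (card_le_card subset_union_left))
      have hpT : p ∈ T := hQT (by simp)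
      have hpT' : p' ∈ T := hQT (by simp)
      have hqT : q ∈ T := hQT (by simp)
      have hqT' : q' ∈ T := hQT (by simp)
      have hUS : L.cls S e p ∪ L.cls S e q ⊆ S := union_subset (filter_subset _ _)
        (filter_subset _ _)
      have g1 : ¬ L.Comb T := fun h => h.1 ⟨p, hpT, p', hpT', q, hqT, q', hqT', m1, m2,
        by rw [hpq]; exact k1, by rw [hpq]; exact k2⟩
      have same : ∀ u v w : V, e < L.d u v → e < L.d u w → e < L.d v w := by
        intro u v w h1 h2
        rw [L.symm] at h1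
        exact lt_trans' h1 h2
      have g2 : ¬ L.Tri T := by
        rintro ⟨u, hu, v, hv, w, hw, -, j1, j2, hm⟩
        have h0 : L.d u v ≤ e := by rw [← hpq]; exact hm p hpT q hqT
        have hcl : ∀ z ∈ T, e < L.d p z ∨ e < L.d q z := by
          intro z hz
          rcases mem_union.1 (hTU hz) with h | h
          · exact Or.inl (mem_cls.1 h).2
          · exact Or.inr (mem_cls.1 h).2
        rcases hcl u hu with h1 | h1 <;> rcases hcl v hv with h2 | h2 <;>
          rcases hcl w hw with h3 | h3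
        · have := same p u v h1 h2; omega
        · have := same p u v h1 h2; omega
        · have := same p u w h1 h3; omega
        · have := same q v w h2 h3; omega
        · have := same p v w h2 h3; omega
        · have := same q u w h1 h3; omega
        · have := same q u v h1 h2; omega
        · have := same q u v h1 h2; omega
      have g3 : ¬ L.Sing T := by
        rintro ⟨z, hz, hzz⟩
        -- a general step
        have step : ∀ u u' v : V, u ∈ T → u' ∈ T → v ∈ T → u ≠ u' → e < L.d u u' → L.d u v = e →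
            e < L.d u z → False := by
          intro u u' v hu hu' hv huu hlt huv huz
          have hvz : v ≠ z := by
            rintro rfl
            omega
          by_cases huz' : u = z
          · have h1 := hzz u' hu' v hv (fun h => huu (huz'.trans h.symm)) hvz
            rw [← huz'] at h1
            have h2 : e < L.d u' v := by omega
            have := lt_trans' hlt h2
            omega
          · have h1 := hzz u hu v hv huz' hvz
            rw [L.symm z u] at h1
            omega
        rcases mem_union.1 (hTU hz) with h | h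
        · exact step p p' q hpT hpT' hqT m1 k1 hpq (mem_cls.1 h).2
        · exact step q q' p hqT hqT' hpT m2 k2 (by rw [L.symm]; exact hpq) (mem_cls.1 h).2
      have := hS T (hTU.trans hUS) hT
      rw [L.col_not_sing g1 g2 g3] at this
      exact Bool.noConfusion this
    have hall : ∀ p ∈ S, (L.cls S e p).card ≤ r := by
      intro p hp
      by_cases hnt : ∃ p' ∈ S, p ≠ p' ∧ e < L.d p p'
      · obtain ⟨p', hp', m1, k1⟩ := hnt
        by_cases hpx : e < L.d p x
        · refine hsmall p hp p' hp' y hy y' hy' m1 n2 k1 l2 (le_antisymm ?_ (hmin p hp y hy))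
          by_contra hcon
          push Not at hcon
          have : e < L.d x y := by
            rw [L.symm] at hpx
            exact lt_trans' hpx hcon
          omega
        · exact hsmall p hp p' hp' x hx x' hx' m1 n1 k1 l1
            (le_antisymm (by omega) (hmin p hp x hx))
      · push Not at hnt
        have : L.cls S e p ⊆ {p} := by
          intro z hz
          rw [mem_singleton]
          by_contra hzp
          have h1 := hnt z (mem_cls.1 hz).1 (fun h => hzp h.symm)
          have h2 := (mem_cls.1 hz).2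
          omega
        have := card_le_card this
        rw [card_singleton] at this
        omega
    -- a maximal equilateral set
    let F : Finset (Finset V) := S.powerset.filter (fun X => ∀ p ∈ X, ∀ q ∈ X, p ≠ q → L.d p q = e)
    have hF : F.Nonempty := ⟨∅, by simp [F]⟩
    obtain ⟨X, hXF, hXmax⟩ := Finset.exists_max_image F card hF
    obtain ⟨hXS, hXe⟩ := mem_filter.1 hXF
    rw [mem_powerset] at hXS
    have hXr : X.card ≤ r := by
      by_contra hcon
      obtain ⟨T, hTX, hT⟩ := Finset.exists_subset_card_eq (show r + 1 ≤ X.card by omega)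
      obtain ⟨u, hu, v, hv, w, hw, huv, huw, hvw⟩ := Finset.two_lt_card.1
        (show 2 < T.card by omega)
      have hd : ∀ p ∈ T, ∀ q ∈ T, p ≠ q → L.d p q = e := fun p hp q hq =>
        hXe p (hTX hp) q (hTX hq)
      have g2 : L.Tri T := ⟨u, hu, v, hv, w, hw, huv, by rw [hd u hu v hv huv, hd v hv w hw hvw],
        by rw [hd u hu v hv huv, hd u hu w hw huw], fun p hp q hq => by
          rw [hd u hu v hv huv]; exact hmin p (hXS (hTX hp)) q (hXS (hTX hq))⟩
      have g1 : ¬ L.Comb T := fun h => h.2 ⟨u, hu, v, hv, w, hw, huv,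
        by rw [hd u hu v hv huv, hd v hv w hw hvw], by rw [hd u hu v hv huv, hd u hu w hw huw]⟩
      have g3 : ¬ L.Bal T := by
        rintro ⟨p, hp, p', hp', q, hq, -, -, hpp, -, hlt, -, -⟩
        rw [hd p hp p' hp' hpp] at hlt
        have := hmin p (hXS (hTX hp)) q (hXS (hTX hq))
        omega
      have := hS T (hTX.trans hXS) hT
      rw [L.col_not_bal g1 g2 g3] at this
      exact Bool.noConfusion this
    have hcov : S ⊆ X.biUnion (fun x => L.cls S e x) := by
      intro z hz
      rw [mem_biUnion]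
      by_contra hcon
      push Not at hcon
      have h1 : ∀ u ∈ X, L.d u z = e := by
        intro u hu
        refine le_antisymm ?_ (hmin u (hXS hu) z hz)
        by_contra h
        exact hcon u hu (mem_cls.2 ⟨hz, by omega⟩)
      have hzX : z ∉ X := by
        intro h
        have := h1 z h
        rw [L.self] at this
        omega
      have hins : insert z X ∈ F := by
        refine mem_filter.2 ⟨mem_powerset.2 (insert_subset hz hXS), fun p hp q hq hpq => ?_⟩
        rcases mem_insert.1 hp with rfl | hp'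
        · rcases mem_insert.1 hq with rfl | hq'
          · exact absurd rfl hpq
          · rw [L.symm]; exact h1 q hq'
        · rcases mem_insert.1 hq with rfl | hq'
          · exact h1 p hp'
          · exact hXe p hp' q hq' hpq
      have := hXmax _ hins
      rw [card_insert_of_notMem hzX] at this
      omega
    have h1 := (card_le_card hcov).trans card_biUnion_le
    have h2 : ∑ x ∈ X, (L.cls S e x).card ≤ X.card * r := by
      rw [← smul_eq_mul]
      exact sum_le_card_nsmul _ _ _ fun x hx => hall x (hXS hx)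
    have h3 : X.card * r ≤ r * r := Nat.mul_le_mul_right _ hXr
    nlinarith
  · push Not at hcase
    have hnothird : ∀ c ∈ S, L.d a c = e → L.d b c = e → False := by
      intro c hc hac hbc
      have hQS : ({a, b, c} : Finset V) ⊆ S := by
        intro z hz
        simp only [mem_insert, mem_singleton] at hz
        rcases hz with rfl | rfl | rfl <;> assumption
      obtain ⟨T, hQT, hTS, hT⟩ := Finset.exists_subsuperset_card_eq hQS
        (show ({a, b, c} : Finset V).card ≤ r + 1 from card_le_three.trans (by omega)) hr1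
      have haT : a ∈ T := hQT (by simp)
      have hbT : b ∈ T := hQT (by simp)
      have hcT : c ∈ T := hQT (by simp)
      have g1 : ¬ L.Comb T := fun h => h.2 ⟨a, haT, b, hbT, c, hcT, hab, by rw [hbc],
        by rw [hac]⟩
      have g2 : L.Tri T := ⟨a, haT, b, hbT, c, hcT, hab, by rw [hbc], by rw [hac],
        fun p hp q hq => hmin p (hTS hp) q (hTS hq)⟩
      have g3 : ¬ L.Bal T := by
        rintro ⟨p, hp, p', hp', q, hq, q', hq', m1, m2, k1, k2, hm⟩
        have h0 : L.d p q = e := le_antisymm (hm a haT b hbT) (hmin p (hTS hp) q (hTS hq))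
        exact hcase p (hTS hp) p' (hTS hp') q (hTS hq) q' (hTS hq') m1 m2 (by omega) (by omega) h0
      have := hS T hTS hT
      rw [L.col_not_bal g1 g2 g3] at this
      exact Bool.noConfusion this
    have main : ∀ u ∈ S, ∀ v ∈ S, L.d u v = e → (∀ c ∈ S, L.d u c = e → L.d v c = e → False) →
        (∀ w ∈ S, w ≠ u → ¬ e < L.d u w) → ∃ x ∈ S, ∃ e < m, (∀ y ∈ S, y ≠ x → L.d x y = e) ∧
          ∀ y ∈ S, ∀ z ∈ S, y ≠ x → z ≠ x → e < L.d y z := by
      intro u hu v hv huv h3 htriv
      have h1 : ∀ y ∈ S, y ≠ u → L.d u y = e := fun y hy hyu =>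
        le_antisymm (by have := htriv y hy hyu; omega) (hmin u hu y hy)
      have h2 : ∀ y ∈ S, y ≠ u → e < L.d v y := by
        intro y hy hyu
        by_contra hcon
        exact h3 y hy (h1 y hy hyu) (le_antisymm (by omega) (hmin v hv y hy))
      refine ⟨u, hu, e, hem, h1, fun y hy z hz hyu hzu => ?_⟩
      have h4 := h2 y hy hyu
      rw [L.symm] at h4
      exact lt_trans' h4 (h2 z hz hzu)
    by_cases hA : ∃ a' ∈ S, a' ≠ a ∧ e < L.d a a'
    · obtain ⟨a', ha', hne, hlt⟩ := hA
      refine main b hb a ha (by rw [L.symm]) (fun c hc h1 h2 => hnothird c hc h2 h1) ?_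
      intro w hw hwb hlt'
      exact hcase a ha a' ha' b hb w hw (Ne.symm hne) (Ne.symm hwb) hlt hlt' rfl
    · push Not at hA
      refine main a ha b hb rfl hnothird ?_
      intro w hw hwa hlt'
      have := hA w hw hwa
      omega

theorem true_bound [DecidableEq V] {χ : Finset ℕ → Bool} {r n : ℕ} (hr : 4 ≤ r)
    (hχ : NoHom χ m r n) {S : Finset V}
    (hS : ∀ T ⊆ S, T.card = r + 1 → L.col χ T = true) : S.card < n + (r + 1) ^ 2 := by
  have key : ∀ j : ℕ, ∀ S' ⊆ S, S'.card = (r + 1) ^ 2 + j → ∃ C ⊆ S', L.Comb C ∧ j + 1 ≤ C.card := by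
    intro j
    induction j with
    | zero =>
      intro S' _ hc
      have : 0 < (r + 1) ^ 2 := by positivity
      obtain ⟨x, hx⟩ := card_pos.1 (show 0 < S'.card by omega)
      exact ⟨{x}, singleton_subset_iff.2 hx, comb_singleton x, by simp⟩
    | succ j ih =>
      intro S' hS' hc
      obtain ⟨x, hx, e, -, h1, h2⟩ := true_peel (L := L) hr
        (fun T hT => hS T (hT.trans hS')) (show (r + 1) ^ 2 < S'.card by omega)
      obtain ⟨C, hC, hcomb, hcard⟩ := ih (S'.erase x) ((erase_subset _ _).trans hS')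
        (by rw [card_erase_of_mem hx]; omega)
      have hxC : x ∉ C := fun h => notMem_erase x S' (hC h)
      refine ⟨insert x C, insert_subset hx (hC.trans (erase_subset _ _)),
        L.comb_insert hcomb (card_pos.1 (by omega))
          (fun y hy => h1 y (mem_of_mem_erase (hC hy)) (ne_of_mem_erase (hC hy)))
          (fun y hy y' hy' => h2 y (mem_of_mem_erase (hC hy)) y' (mem_of_mem_erase (hC hy'))
            (ne_of_mem_erase (hC hy)) (ne_of_mem_erase (hC hy'))), ?_⟩
      rw [card_insert_of_notMem hxC]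
      omega
  by_contra hcon
  push Not at hcon
  obtain ⟨S', hS', hc⟩ := Finset.exists_subset_card_eq
    (show (r + 1) ^ 2 + n ≤ S.card by omega)
  obtain ⟨C, hC, hcomb, hcard⟩ := key n S' hS' hc
  have := L.no_comb hχ hS (hC.trans hS') hcomb
  omega

/-- **Main lemma.** -/
theorem bound [DecidableEq V] {χ : Finset ℕ → Bool} {r n K : ℕ} (hr : 4 ≤ r)
    (hn : (r + 1) ^ 2 ≤ n) (hK : L.Width K) (hχ : NoHom χ m r n) {S : Finset V} {b : Bool}
    (hS : ∀ T ⊆ S, T.card = r + 1 → L.col χ T = b) : S.card < n + max n K := by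
  cases b with
  | false =>
    exact false_bound hr (by nlinarith) hK hχ hS
  | true =>
    have h1 := true_bound hr hχ hS
    have := le_max_left n K
    omega

/-- invariance -/
theorem col_image [DecidableEq V] (χ : Finset ℕ → Bool) (g : V → V) (hg : Function.Injective g)
    (h : ∀ x y, L.d (g x) (g y) = L.d x y) (T : Finset V) : L.col χ (T.image g) = L.col χ T := by
  have e1 : L.lev (T.image g) = L.lev T := by
    ext i
    simp only [L.mem_lev, Finset.exists_mem_image, h, hg.ne_iff]
  have e2 : L.Bal0 (T.image g) ↔ L.Bal0 T := by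
    simp only [Bal0, Finset.exists_mem_image, h, hg.ne_iff]
  have e3 : L.Tri0 (T.image g) ↔ L.Tri0 T := by
    simp only [Tri0, Finset.exists_mem_image, h, hg.ne_iff]
  have e4 : L.Tri (T.image g) ↔ L.Tri T := by
    simp only [Tri, Finset.exists_mem_image, Finset.forall_mem_image, h, hg.ne_iff]
  have e5 : L.Bal (T.image g) ↔ L.Bal T := by
    simp only [Bal, Finset.exists_mem_image, Finset.forall_mem_image, h, hg.ne_iff]
  have e6 : L.Sing (T.image g) ↔ L.Sing T := by
    simp only [Sing, Finset.exists_mem_image, Finset.forall_mem_image, h, hg.ne_iff]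
  have e7 : L.Comb (T.image g) ↔ L.Comb T := by
    unfold Comb
    rw [e2, e3]
  unfold col
  by_cases hc : L.Comb T
  · rw [if_pos hc, if_pos (e7.2 hc), e1]
  · rw [if_neg hc, if_neg (mt e7.1 hc)]
    by_cases ht : L.Tri T
    · rw [if_pos ht, if_pos (e4.2 ht)]
      exact decide_eq_decide.2 e5
    · rw [if_neg ht, if_neg (mt e4.1 ht)]
      exact decide_eq_decide.2 e6

end Lev

end Pool.Agent.TH772.SY
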