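import Mathlib
import Pool.Agent.TH772.SY.Tree

/-!
# Trees, groups with chains of subgroups, and Sylow subgroups of symmetric groups
-/

set_option autoImplicit false

namespace Pool.Agent.TH772.SY

open Finset

/-! ### ultrametrics from chains of equivalence relations -/

/-- a decreasing chain of equivalence relations -/
structure Chain (V : Type*) (m : ℕ) where
  E : ℕ → V → V → Prop
  refl : ∀ j x, E j x x
  symm : ∀ j x y, E j x y → E j y x
  trans : ∀ j x y z, E j x y → E j y z → E j x z
  anti : ∀ j x y, E (j + 1) x y → E j x y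
  zero : ∀ x y, E 0 x y
  top : ∀ x y, E m x y → x = y

namespace Chain

variable {V : Type*} {m : ℕ} (C : Chain V m)

theorem anti' {i j : ℕ} (h : i ≤ j) {x y : V} (hE : C.E j x y) : C.E i x y := by
  induction h with
  | refl => exact hE
  | step _ ih => exact ih (C.anti _ _ _ hE)

open Classical in
/-- the last relation of the chain which holds -/
noncomputable def lvl (x y : V) : ℕ := Nat.findGreatest (fun j => C.E j x y) m

theorem le_lvl {j : ℕ} (hj : j ≤ m) {x y : V} : j ≤ C.lvl x y ↔ C.E j x y := by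
  classical
  constructor
  · intro h
    have h1 : C.E (C.lvl x y) x y :=
      Nat.findGreatest_spec (P := fun j => C.E j x y) (Nat.zero_le m) (C.zero x y)
    exact C.anti' h h1
  · intro h
    exact Nat.le_findGreatest hj h

theorem lvl_le (x y : V) : C.lvl x y ≤ m := by
  classical
  exact Nat.findGreatest_le m

/-- the ultrametric -/
noncomputable def toLev : Lev V m where
  d := C.lvl
  symm := by
    intro x y
    apply le_antisymm
    · exact (C.le_lvl (C.lvl_le x y)).2 (C.symm _ _ _ ((C.le_lvl (C.lvl_le x y)).1 le_rfl))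
    · exact (C.le_lvl (C.lvl_le y x)).2 (C.symm _ _ _ ((C.le_lvl (C.lvl_le y x)).1 le_rfl))
  self := fun x => le_antisymm (C.lvl_le x x) ((C.le_lvl le_rfl).2 (C.refl m x))
  lt := by
    intro x y h
    by_contra hcon
    exact h (C.top x y ((C.le_lvl le_rfl).1 (by omega)))
  ultra := by
    intro x y z
    set j := min (C.lvl x y) (C.lvl y z) with hj
    have hjm : j ≤ m := (min_le_left _ _).trans (C.lvl_le x y)
    exact (C.le_lvl hjm).2 (C.trans _ _ _ _ ((C.le_lvl hjm).1 (min_le_left _ _))
      ((C.le_lvl hjm).1 (min_le_right _ _)))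

theorem width {K : ℕ} (hK : 1 ≤ K)
    (h : ∀ (S : Finset V) (e : ℕ), e < m → (∀ x ∈ S, ∀ y ∈ S, C.E e x y) →
      (∀ x ∈ S, ∀ y ∈ S, C.E (e + 1) x y → x = y) → S.card ≤ K) : C.toLev.Width K := by
  intro S e hS
  by_cases h1 : S.card ≤ 1
  · omega
  · obtain ⟨a, ha, b, hb, hab⟩ := Finset.one_lt_card.1 (show 1 < S.card by omega)
    have hem : e < m := by
      rw [← hS a ha b hb hab]
      exact C.toLev.lt a b hab
    refine h S e hem ?_ ?_
    · intro x hx y hy
      by_cases hxy : x = y
      · rw [hxy]; exact C.refl e y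
      · exact (C.le_lvl hem.le).1 (hS x hx y hy hxy).ge
    · intro x hx y hy hE
      by_contra hxy
      have h2 := (C.le_lvl (show e + 1 ≤ m from hem)).2 hE
      have h3 : C.lvl x y = e := hS x hx y hy hxy
      omega

theorem lvl_eq {W : Type*} (C' : Chain W m) (g : V → W)
    (h : ∀ j ≤ m, ∀ x y, C'.E j (g x) (g y) ↔ C.E j x y) (x y : V) :
    C'.toLev.d (g x) (g y) = C.toLev.d x y := by
  show C'.lvl (g x) (g y) = C.lvl x y
  apply le_antisymm
  · exact (C.le_lvl (C'.lvl_le _ _)).2 ((h _ (C'.lvl_le _ _) _ _).1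
      ((C'.le_lvl (C'.lvl_le _ _)).1 le_rfl))
  · exact (C'.le_lvl (C.lvl_le _ _)).2 ((h _ (C.lvl_le _ _) _ _).2
      ((C.le_lvl (C.lvl_le _ _)).1 le_rfl))

end Chain

/-! ### The tree of words -/

/-- agreement of the first `j` letters -/
def treeChain (K m : ℕ) : Chain (Fin m → Fin K) m where
  E j x y := ∀ i : Fin m, (i : ℕ) < j → x i = y i
  refl := fun _ _ _ _ => rfl
  symm := fun _ _ _ h i hi => (h i hi).symm
  trans := fun _ _ _ _ h1 h2 i hi => (h1 i hi).trans (h2 i hi)
  anti := fun _ _ _ h i hi => h i (Nat.lt_succ_of_lt hi)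
  zero := fun _ _ _ h => absurd h (Nat.not_lt_zero _)
  top := fun _ _ h => funext fun i => h i i.2

theorem tree_width {K m : ℕ} (hK : 1 ≤ K) : (treeChain K m).toLev.Width K := by
  classical
  refine (treeChain K m).width hK ?_
  intro S e he h1 h2
  have : S.card ≤ (Finset.univ : Finset (Fin K)).card := by
    refine Finset.card_le_card_of_injOn (fun x => x ⟨e, he⟩) (fun _ _ => mem_coe.2 (mem_univ _)) ?_
    intro x hx y hy hxy
    refine h2 x hx y hy fun i hi => ?_
    rcases Nat.lt_succ_iff_lt_or_eq.1 hi with h | h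
    · exact h1 x hx y hy i h
    · have : i = ⟨e, he⟩ := Fin.ext h
      rw [this]
      exact hxy
  simpa using this

/-- The permutations of the words of length `m` in `K` letters which, for every `j`, preserve the
relation that two words agree in their first `j` letters. -/
def TreeAut (K m : ℕ) : Subgroup (Equiv.Perm (Fin m → Fin K)) where
  carrier := {g | ∀ (x y : Fin m → Fin K) (j : ℕ),
    (∀ i : Fin m, (i : ℕ) < j → g x i = g y i) ↔ ∀ i : Fin m, (i : ℕ) < j → x i = y i}
  mul_mem' := by
    intro a b ha hb x y j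
    exact (ha (b x) (b y) j).trans (hb x y j)
  one_mem' := by
    intro x y j
    exact Iff.rfl
  inv_mem' := by
    intro a ha x y j
    have := ha (a⁻¹ x) (a⁻¹ y) j
    simp only [← Equiv.Perm.mul_apply, mul_inv_cancel, Equiv.Perm.one_apply] at this
    exact this.symm

theorem mem_treeAut {K m : ℕ} {g : Equiv.Perm (Fin m → Fin K)} : g ∈ TreeAut K m ↔
    ∀ (x y : Fin m → Fin K) (j : ℕ),
    (∀ i : Fin m, (i : ℕ) < j → g x i = g y i) ↔ ∀ i : Fin m, (i : ℕ) < j → x i = y i := Iff.rfl

theorem treeAut_d {K m : ℕ} {g : Equiv.Perm (Fin m → Fin K)} (hg : g ∈ TreeAut K m)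
    (x y : Fin m → Fin K) : (treeChain K m).toLev.d (g x) (g y) = (treeChain K m).toLev.d x y :=
  (treeChain K m).lvl_eq (treeChain K m) g (fun j _ x y => hg x y j) x y

/-- composition of a permutation of the letters and of automorphisms of the subtrees -/
def glue {K m : ℕ} (p : Equiv.Perm (Fin K) × (Fin K → TreeAut K m)) :
    Equiv.Perm (Fin (m + 1) → Fin K) :=
  ((Fin.consEquiv (fun _ : Fin (m + 1) => Fin K)).symm.trans
    (Equiv.prodShear p.1 (fun a => (p.2 a).1))).trans (Fin.consEquiv (fun _ : Fin (m + 1) => Fin K))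

theorem glue_apply {K m : ℕ} (p : Equiv.Perm (Fin K) × (Fin K → TreeAut K m))
    (x : Fin (m + 1) → Fin K) :
    glue p x = Fin.cons (p.1 (x 0)) ((p.2 (x 0)).1 (Fin.tail x)) := rfl

theorem glue_zero {K m : ℕ} (p : Equiv.Perm (Fin K) × (Fin K → TreeAut K m))
    (x : Fin (m + 1) → Fin K) : glue p x 0 = p.1 (x 0) := rfl

theorem glue_succ {K m : ℕ} (p : Equiv.Perm (Fin K) × (Fin K → TreeAut K m))
    (x : Fin (m + 1) → Fin K) (i : Fin m) :
    glue p x i.succ = (p.2 (x 0)).1 (Fin.tail x) i := rfl

theorem glue_mem {K m : ℕ} (p : Equiv.Perm (Fin K) × (Fin K → TreeAut K m)) :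
    glue p ∈ TreeAut K (m + 1) := by
  intro x y j
  cases j with
  | zero => simp
  | succ j =>
    rw [Fin.forall_fin_succ, Fin.forall_fin_succ]
    simp only [glue_zero, glue_succ, Fin.val_zero, Nat.zero_lt_succ, forall_true_left,
      Fin.val_succ, Nat.add_lt_add_iff_right, EmbeddingLike.apply_eq_iff_eq]
    constructor
    · rintro ⟨h1, h2⟩
      refine ⟨h1, ?_⟩
      rw [← h1] at h2
      exact ((p.2 (x 0)).2 (Fin.tail x) (Fin.tail y) j).1 h2
    · rintro ⟨h1, h2⟩
      refine ⟨h1, ?_⟩
      rw [← h1]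
      exact ((p.2 (x 0)).2 (Fin.tail x) (Fin.tail y) j).2 h2

theorem glue_bij (K m : ℕ) : Function.Bijective
    (fun p : Equiv.Perm (Fin K) × (Fin K → TreeAut K m) =>
      (⟨glue p, glue_mem p⟩ : TreeAut K (m + 1))) := by
  constructor
  · rintro ⟨s, h⟩ ⟨s', h'⟩ hp
    have h0 : glue (s, h) = glue (s', h') := congrArg Subtype.val hp
    have h1 : s = s' := by
      ext a
      have := congrFun (congrArg (fun g : Equiv.Perm _ => (g : _ → _)) h0) (fun _ => a)
      have := congrFun this 0
      rw [glue_zero, glue_zero] at this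
      exact congrArg Fin.val this
    have h2 : h = h' := by
      funext a
      apply Subtype.ext
      ext y i
      have := congrFun (congrArg (fun g : Equiv.Perm _ => (g : _ → _)) h0) (Fin.cons a y)
      have := congrFun this i.succ
      rw [glue_succ, glue_succ] at this
      exact congrArg Fin.val this
    rw [h1, h2]
  · rintro ⟨g, hg⟩
    have h0 : ∀ x y : Fin (m + 1) → Fin K, g x 0 = g y 0 ↔ x 0 = y 0 := by
      intro x y
      have := hg x y 1
      constructor
      · intro h
        refine this.1 (fun i hi => ?_) 0 Nat.zero_lt_one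
        have : i = 0 := Fin.ext (by have := hi; simp at this; simp [this])
        rw [this]; exact h
      · intro h
        refine this.2 (fun i hi => ?_) 0 Nat.zero_lt_one
        have : i = 0 := Fin.ext (by have := hi; simp at this; simp [this])
        rw [this]; exact h
    have hs : Function.Injective (fun a : Fin K => g (fun _ => a) 0) := fun a b h => (h0 _ _).1 h
    let s : Equiv.Perm (Fin K) := Equiv.ofBijective _ (Finite.injective_iff_bijective.1 hs)
    have hsx : ∀ x : Fin (m + 1) → Fin K, g x 0 = s (x 0) := fun x => (h0 _ _).2 rfl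
    have hh : ∀ a : Fin K, Function.Injective (fun y : Fin m → Fin K => Fin.tail (g (Fin.cons a y))) := by
      intro a y y' h
      have h1 : g (Fin.cons a y) = g (Fin.cons a y') := by
        rw [← Fin.cons_self_tail (g (Fin.cons a y)), ← Fin.cons_self_tail (g (Fin.cons a y'))]
        have h2 : g (Fin.cons a y) 0 = g (Fin.cons a y') 0 := (h0 _ _).2 rfl
        have h3 : Fin.tail (g (Fin.cons a y)) = Fin.tail (g (Fin.cons a y')) := h
        rw [h2, h3]
      have h4 := g.injective h1
      exact (Fin.cons_injective2 h4).2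
    let h : Fin K → TreeAut K m := fun a => ⟨Equiv.ofBijective _
      (Finite.injective_iff_bijective.1 (hh a)), by
        intro y y' j
        have := hg (Fin.cons a y) (Fin.cons a y') (j + 1)
        rw [Fin.forall_fin_succ, Fin.forall_fin_succ] at this
        simp only [Fin.val_zero, Nat.zero_lt_succ, forall_true_left, Fin.val_succ,
          Nat.add_lt_add_iff_right, Fin.cons_zero, Fin.cons_succ, true_and] at this
        have h5 : g (Fin.cons a y) 0 = g (Fin.cons a y') 0 := (h0 _ _).2 rfl
        exact ⟨fun h6 => this.1 ⟨h5, h6⟩, fun h6 => (this.2 h6).2⟩⟩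
    refine ⟨(s, h), ?_⟩
    apply Subtype.ext
    ext x i
    show ((glue (s, h)) x i : ℕ) = (g x i : ℕ)
    congr 1
    refine Fin.cases ?_ (fun i => ?_) i
    · rw [glue_zero, hsx]
    · rw [glue_succ]
      show g (Fin.cons (x 0) (Fin.tail x)) i.succ = g x i.succ
      rw [Fin.cons_self_tail]

theorem card_treeAut (K m : ℕ) : Nat.card (TreeAut K m) = (K.factorial) ^ (∑ i ∈ range m, K ^ i) := by
  induction m with
  | zero =>
    rw [range_zero, sum_empty, pow_zero]
    have : Subsingleton (TreeAut K 0) := ⟨fun a b => Subtype.ext (by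
      ext x i; exact i.elim0)⟩
    exact Nat.card_eq_one_iff_unique.2 ⟨this, ⟨1⟩⟩
  | succ m ih =>
    rw [← Nat.card_congr (Equiv.ofBijective _ (glue_bij K m)), Nat.card_prod, Nat.card_fun, ih,
      Nat.card_perm, Nat.card_fin, ← pow_mul, ← pow_succ']
    congr 1
    rw [sum_range_succ', pow_zero, sum_mul]
    congr 1

end Pool.Agent.TH772.SY
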