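import Mathlib

/-!
# Iterated logarithms
-/

set_option autoImplicit false

namespace Pool.Agent.TH772.SY

open Filter

theorem iter_mono (k : ℕ) : ∃ M : ℝ, ∀ x y : ℝ, M ≤ x → x ≤ y →
    (Real.log)^[k] x ≤ (Real.log)^[k] y := by
  induction k with
  | zero => exact ⟨0, fun x y _ h => h⟩
  | succ k ih =>
    obtain ⟨M, hM⟩ := ih
    refine ⟨Real.exp M, fun x y hx hxy => ?_⟩
    have h0 : 0 < x := (Real.exp_pos M).trans_le hx
    rw [Function.iterate_succ_apply, Function.iterate_succ_apply]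
    exact hM _ _ ((Real.le_log_iff_exp_le h0).2 hx) (Real.log_le_log h0 hxy)

theorem iter_tendsto (k : ℕ) : Tendsto ((Real.log)^[k]) atTop atTop := by
  induction k with
  | zero => exact tendsto_id
  | succ k ih =>
    rw [Function.iterate_succ']
    exact Real.tendsto_log_atTop.comp ih

theorem iter_scale (k : ℕ) {a : ℝ} (ha : 0 < a) : ∀ᶠ x : ℝ in atTop,
    (Real.log)^[k + 1] x ≤ 2 * (Real.log)^[k + 1] (x * a) := by
  have hta : Tendsto (fun x : ℝ => x * a) atTop atTop := tendsto_id.atTop_mul_const ha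
  induction k with
  | zero =>
    filter_upwards [Real.tendsto_log_atTop.eventually_ge_atTop (-(2 * Real.log a)),
      eventually_gt_atTop 0] with x hx h0
    simp only [zero_add, Function.iterate_one]
    rw [Real.log_mul h0.ne' ha.ne']
    linarith
  | succ k ih =>
    filter_upwards [ih, (iter_tendsto (k + 1)).eventually_gt_atTop 0,
      ((iter_tendsto (k + 1)).comp hta).eventually_gt_atTop 0,
      ((iter_tendsto (k + 2)).comp hta).eventually_ge_atTop (Real.log 2)] with x h1 h2 h3 h4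
    rw [Function.iterate_succ_apply' Real.log (k + 1) x,
      Function.iterate_succ_apply' Real.log (k + 1) (x * a)]
    simp only [Function.comp_apply] at h3 h4
    rw [Function.iterate_succ_apply'] at h4
    have h5 := Real.log_le_log h2 h1
    rw [Real.log_mul (by norm_num) h3.ne'] at h5
    linarith

/-- the two halves of `f ≍ n` -/
theorem log_equiv {k : ℕ} {R T : ℕ → ℕ} {N₀ : ℕ} (hR : ∀ n, n ≤ R n)
    (h1 : ∀ n, N₀ ≤ n → R n ≤ T (2 * n)) (h2 : ∀ n, N₀ ≤ n → T (n + 1) ≤ R n)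
    (hT : ∀ n n', n ≤ n' → T n ≤ T n') :
    ((∃ c : ℝ, 0 < c ∧ ∀ᶠ n : ℕ in atTop, c * n ≤ (Real.log)^[k + 1] (R n : ℝ)) ↔
      ∃ c : ℝ, 0 < c ∧ ∀ᶠ n : ℕ in atTop, c * n ≤ (Real.log)^[k + 2] ((2 ^ T n : ℕ) : ℝ)) ∧
    ((∃ C : ℝ, 0 < C ∧ ∀ᶠ n : ℕ in atTop, (Real.log)^[k + 1] (R n : ℝ) ≤ C * n) ↔
      ∃ C : ℝ, 0 < C ∧ ∀ᶠ n : ℕ in atTop, (Real.log)^[k + 2] ((2 ^ T n : ℕ) : ℝ) ≤ C * n) := by
  have hl2 : 0 < Real.log 2 := Real.log_pos (by norm_num)
  have hl1 : Real.log 2 ≤ 1 := by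
    have := Real.log_le_sub_one_of_pos (show (0 : ℝ) < 2 by norm_num)
    linarith
  have hlog : ∀ n, (Real.log)^[k + 2] ((2 ^ T n : ℕ) : ℝ) =
      (Real.log)^[k + 1] ((T n : ℝ) * Real.log 2) := by
    intro n
    rw [Function.iterate_succ_apply]
    push_cast
    rw [Real.log_pow]
  have hRt : Tendsto (fun n => (R n : ℝ)) atTop atTop :=
    tendsto_atTop_mono (fun n => Nat.cast_le.2 (hR n)) tendsto_natCast_atTop_atTop
  have hTlow : ∀ n, 2 * N₀ + 1 ≤ n → R (n / 2) ≤ T n := fun n hn =>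
    (h1 (n / 2) (by omega)).trans (hT _ _ (by omega))
  have hTt : Tendsto (fun n => (T n : ℝ)) atTop atTop := by
    refine tendsto_atTop_mono' atTop (f₁ := fun n : ℕ => ((n / 2 : ℕ) : ℝ)) ?_ ?_
    · filter_upwards [eventually_ge_atTop (2 * N₀ + 1)] with n hn
      exact Nat.cast_le.2 ((hR _).trans (hTlow n hn))
    · exact tendsto_natCast_atTop_atTop.comp (Nat.tendsto_div_const_atTop (by norm_num))
  have hTt' : Tendsto (fun n => (T n : ℝ) * Real.log 2) atTop atTop := hTt.atTop_mul_const hl2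
  obtain ⟨M, hM⟩ := iter_mono (k + 1)
  -- `T n ≤ R (n - 1)`
  have hup : ∀ᶠ n : ℕ in atTop, (Real.log)^[k + 1] ((T n : ℝ) * Real.log 2) ≤
      (Real.log)^[k + 1] (R (n - 1) : ℝ) := by
    filter_upwards [hTt'.eventually_ge_atTop M, eventually_ge_atTop (N₀ + 1)] with n h3 h4
    refine hM _ _ h3 ?_
    have h5 := h2 (n - 1) (by omega)
    rw [show n - 1 + 1 = n by omega] at h5
    calc (T n : ℝ) * Real.log 2 ≤ (T n : ℝ) * 1 :=
          mul_le_mul_of_nonneg_left hl1 (Nat.cast_nonneg _)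
      _ ≤ (R (n - 1) : ℝ) := by rw [mul_one]; exact Nat.cast_le.2 h5
  -- `R n ≤ T (2 n)`
  have hlow : ∀ᶠ n : ℕ in atTop, (Real.log)^[k + 1] (R n : ℝ) ≤
      2 * (Real.log)^[k + 1] ((T (2 * n) : ℝ) * Real.log 2) := by
    have h2n : Tendsto (fun n : ℕ => 2 * n) atTop atTop :=
      tendsto_atTop_mono (fun n => by simp only [id_eq]; omega) tendsto_id
    filter_upwards [hRt.eventually_ge_atTop M, eventually_ge_atTop N₀,
      (hTt.comp h2n).eventually (iter_scale k hl2)] with n h3 h4 h5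
    exact (hM _ _ h3 (Nat.cast_le.2 (h1 n h4))).trans h5
  have hlow' : ∀ᶠ n : ℕ in atTop, (Real.log)^[k + 1] (R (n / 2) : ℝ) ≤
      2 * (Real.log)^[k + 1] ((T n : ℝ) * Real.log 2) := by
    have h2n : Tendsto (fun n : ℕ => n / 2) atTop atTop :=
      Nat.tendsto_div_const_atTop (by norm_num)
    filter_upwards [(hRt.comp h2n).eventually_ge_atTop M, eventually_ge_atTop (2 * N₀ + 1),
      hTt.eventually (iter_scale k hl2)] with n h3 h4 h5
    exact (hM _ _ h3 (Nat.cast_le.2 (hTlow n h4))).trans h5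
  have hsucc : Tendsto (fun n : ℕ => n + 1) atTop atTop := tendsto_add_atTop_nat 1
  have hpred : Tendsto (fun n : ℕ => n - 1) atTop atTop := tendsto_sub_atTop_nat 1
  have hhalf : Tendsto (fun n : ℕ => n / 2) atTop atTop :=
    Nat.tendsto_div_const_atTop (by norm_num)
  have hdbl : Tendsto (fun n : ℕ => 2 * n) atTop atTop :=
    tendsto_atTop_mono (fun n => by simp only [id_eq]; omega) tendsto_id
  simp only [hlog]
  refine ⟨⟨?_, ?_⟩, ⟨?_, ?_⟩⟩
  · rintro ⟨c, hc, h⟩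
    refine ⟨c / 8, by positivity, ?_⟩
    filter_upwards [hhalf.eventually h, hlow', eventually_ge_atTop 2] with n h3 h4 h5
    have h6 : (n : ℝ) ≤ 4 * ((n / 2 : ℕ) : ℝ) := by
      exact_mod_cast (show n ≤ 4 * (n / 2) by omega)
    nlinarith
  · rintro ⟨c, hc, h⟩
    refine ⟨c, hc, ?_⟩
    filter_upwards [hsucc.eventually h, hsucc.eventually hup] with n h3 h4
    rw [Nat.add_sub_cancel] at h4
    push_cast at h3
    nlinarith
  · rintro ⟨C, hC, h⟩
    refine ⟨C, hC, ?_⟩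
    filter_upwards [hpred.eventually h, hup] with n h3 h4
    have h6 : ((n - 1 : ℕ) : ℝ) ≤ n := by exact_mod_cast Nat.sub_le n 1
    nlinarith
  · rintro ⟨C, hC, h⟩
    refine ⟨4 * C, by positivity, ?_⟩
    filter_upwards [hdbl.eventually h, hlow] with n h3 h4
    push_cast at h3
    nlinarith

end Pool.Agent.TH772.SY
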