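import Mathlib
import Pool.Agent.TH772.SY.Aut

/-!
# Sylow subgroups of the symmetric group on `p ^ m` points act on trees
-/

set_option autoImplicit false

namespace Pool.Agent.TH772.SY

open Finset
open scoped Pointwise

theorem fact_factorization (p m : ℕ) [hp : Fact p.Prime] :
    ((p ^ m).factorial).factorization p = ∑ i ∈ range m, p ^ i := by
  induction m with
  | zero => simp
  | succ m ih =>
    rw [sum_range_succ, ← ih, pow_succ', Nat.factorization_def _ hp.out,
      Nat.factorization_def _ hp.out, padicValNat_factorial_mul]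

theorem prime_fact_factorization (p : ℕ) [hp : Fact p.Prime] :
    (p.factorial).factorization p = 1 := by
  have := fact_factorization p 1
  simpa using this

/-- A Sylow `p`-subgroup of the automorphism group of the tree is a Sylow `p`-subgroup of the
symmetric group. -/
theorem exists_sylow_le (p m : ℕ) [hp : Fact p.Prime] :
    ∃ P : Sylow p (Equiv.Perm (Fin m → Fin p)), (P : Subgroup _) ≤ TreeAut p m := by
  classical
  let Q : Sylow p (TreeAut p m) := default
  let H : Subgroup (Equiv.Perm (Fin m → Fin p)) := (Q : Subgroup (TreeAut p m)).map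
    (TreeAut p m).subtype
  have hcard : Nat.card H = p ^ (Nat.card (Equiv.Perm (Fin m → Fin p))).factorization p := by
    have h1 : Nat.card H = Nat.card (Q : Subgroup (TreeAut p m)) :=
      Subgroup.card_map_of_injective (Subgroup.subtype_injective _)
    rw [h1, Sylow.card_eq_multiplicity, card_treeAut, Nat.card_perm, Nat.card_fun, Nat.card_fin,
      Nat.card_fin, fact_factorization, Nat.factorization_pow, Finsupp.smul_apply,
      prime_fact_factorization, smul_eq_mul, mul_one]
  refine ⟨Sylow.ofCard H hcard, ?_⟩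
  rw [Sylow.coe_ofCard]
  rintro _ ⟨x, -, rfl⟩
  exact x.2

/-- Every `p`-group of permutations of `p ^ m` points acts on the tree of words. -/
theorem exists_tree (p m : ℕ) [hp : Fact p.Prime] {X : Type*} [Fintype X]
    (hX : Fintype.card X = p ^ m) (G : Subgroup (Equiv.Perm X)) (hG : IsPGroup p G) :
    ∃ f : X ≃ (Fin m → Fin p), ∀ q ∈ G, f.permCongr q ∈ TreeAut p m := by
  classical
  obtain ⟨P, hP⟩ := exists_sylow_le p m
  have e : X ≃ (Fin m → Fin p) := Fintype.equivOfCardEq (by simp [hX])
  have hG' : IsPGroup p (G.map (e.permCongrHom : Equiv.Perm X →* Equiv.Perm (Fin m → Fin p))) :=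
    hG.map _
  obtain ⟨Q, hQ⟩ := hG'.exists_le_sylow
  obtain ⟨g, hg⟩ := MulAction.exists_smul_eq (Equiv.Perm (Fin m → Fin p)) Q P
  refine ⟨e.trans g, fun q hq => ?_⟩
  have h1 : e.permCongr q ∈ Q := hQ ⟨q, hq, rfl⟩
  have h2 : g * e.permCongr q * g⁻¹ ∈ P := by
    have h4 : MulAut.conj g • e.permCongr q ∈ (MulAut.conj g • (Q : Subgroup _) : Subgroup _) :=
      Subgroup.smul_mem_pointwise_smul _ _ _ h1
    rw [← Sylow.coe_subgroup_smul, hg] at h4
    exact h4
  have h3 : (e.trans g).permCongr q = g * e.permCongr q * g⁻¹ := by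
    ext x
    simp [Equiv.permCongr_apply]
  rw [h3]
  exact hP h2

end Pool.Agent.TH772.SY
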