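import Mathlib
import Pool.Agent.TH772.SY.Syl
import Pool.Agent.H507R3.RamAll

/-!
# Upper bound for invariant colourings
-/

set_option autoImplicit false

namespace Pool.Agent.TH772.SY

open Finset

/-- swapping the letters `a` and `b` at position `j` in the words which begin with `j` letters `a` -/
def toggle {K m : ℕ} (a b : Fin K) (j : ℕ) (x : Fin m → Fin K) : Fin m → Fin K :=
  if ∀ i : Fin m, (i : ℕ) < j → x i = a then
    fun i => if (i : ℕ) = j then Equiv.swap a b (x i) else x i
  else x

theorem toggle_toggle {K m : ℕ} (a b : Fin K) (j : ℕ) (x : Fin m → Fin K) :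
    toggle a b j (toggle a b j x) = x := by
  unfold toggle
  by_cases h : ∀ i : Fin m, (i : ℕ) < j → x i = a
  · rw [if_pos h, if_pos]
    · funext i
      by_cases hi : (i : ℕ) = j
      · rw [if_pos hi, if_pos hi, Equiv.swap_apply_def, Equiv.swap_apply_def]
        split_ifs <;> simp_all
      · rw [if_neg hi, if_neg hi]
    · intro i hi
      rw [if_neg (by omega)]
      exact h i hi
  · rw [if_neg h, if_neg h]

/-- the permutation `toggle` -/
def togglePerm {K m : ℕ} (a b : Fin K) (j : ℕ) : Equiv.Perm (Fin m → Fin K) where
  toFun := toggle a b j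
  invFun := toggle a b j
  left_inv := toggle_toggle a b j
  right_inv := toggle_toggle a b j

theorem toggle_agree {K m : ℕ} (a b : Fin K) (j : ℕ) {x y : Fin m → Fin K} {l : ℕ}
    (h : ∀ i : Fin m, (i : ℕ) < l → x i = y i) : ∀ i : Fin m, (i : ℕ) < l →
    toggle a b j x i = toggle a b j y i := by
  intro i hi
  unfold toggle
  by_cases hjl : j < l
  · have h1 : (∀ i : Fin m, (i : ℕ) < j → x i = a) ↔ ∀ i : Fin m, (i : ℕ) < j → y i = a := by
      constructor
      · intro h2 i hi; rw [← h i (by omega)]; exact h2 i hi
      · intro h2 i hi; rw [h i (by omega)]; exact h2 i hi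
    by_cases h3 : ∀ i : Fin m, (i : ℕ) < j → x i = a
    · rw [if_pos h3, if_pos (h1.1 h3)]
      simp only [h i hi]
    · rw [if_neg h3, if_neg (mt h1.2 h3)]
      exact h i hi
  · have h1 : ∀ z : Fin m → Fin K, (if ∀ i : Fin m, (i : ℕ) < j → z i = a then
        (fun i : Fin m => if (i : ℕ) = j then Equiv.swap a b (z i) else z i)
        else z) i = z i := by
      intro z
      by_cases h3 : ∀ i : Fin m, (i : ℕ) < j → z i = a
      · rw [if_pos h3]
        simp only [if_neg (show ¬ (i : ℕ) = j by omega)]
      · rw [if_neg h3]
    rw [h1, h1]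
    exact h i hi

theorem togglePerm_mem {K m : ℕ} (a b : Fin K) (j : ℕ) :
    (togglePerm a b j : Equiv.Perm (Fin m → Fin K)) ∈ TreeAut K m := by
  intro x y l
  constructor
  · intro h
    have := toggle_agree a b j h
    intro i hi
    have := this i hi
    rw [← toggle_toggle a b j x, ← toggle_toggle a b j y]
    exact this
  · exact toggle_agree a b j

/-- the word with letter `b` in position `j` and letters `a` elsewhere (only letters `a` if
`m ≤ j`) -/
def pt {K m : ℕ} (a b : Fin K) (j : ℕ) : Fin m → Fin K := fun i => if (i : ℕ) = j then b else a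

theorem pt_inj {K m : ℕ} {a b : Fin K} (hab : a ≠ b) {j l : ℕ} (hj : j ≤ m) (hl : l ≤ m)
    (h : (pt a b j : Fin m → Fin K) = pt a b l) : j = l := by
  by_contra hne
  rcases lt_or_gt_of_ne hne with h1 | h1
  · have := congrFun h ⟨j, by omega⟩
    simp only [pt] at this
    rw [if_pos trivial, if_neg hne] at this
    exact hab this.symm
  · have := congrFun h ⟨l, by omega⟩
    simp only [pt] at this
    rw [if_pos trivial, if_neg (fun h => hne h.symm)] at this
    exact hab this

theorem toggle_pt_self {K m : ℕ} (a b : Fin K) {j : ℕ} :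
    toggle a b j (pt a b j : Fin m → Fin K) = pt a b m := by
  unfold toggle
  rw [if_pos]
  · funext i
    have := i.2
    by_cases h : (i : ℕ) = j
    · simp only [pt, if_pos h, if_neg (show ¬ (i : ℕ) = m by omega), Equiv.swap_apply_right]
    · simp only [pt, if_neg h, if_neg (show ¬ (i : ℕ) = m by omega)]
  · intro i hi
    simp only [pt]
    rw [if_neg (by omega)]

theorem toggle_pt_lt {K m : ℕ} {a b : Fin K} (hab : a ≠ b) {j l : ℕ} (hj : j < m) (hl : l < j) :
    toggle a b j (pt a b l : Fin m → Fin K) = pt a b l := by
  unfold toggle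
  rw [if_neg]
  intro h
  have := h ⟨l, by omega⟩ hl
  simp only [pt] at this
  rw [if_pos trivial] at this
  exact hab this.symm

/-- Every 2-colouring of the `(r + 1)`-sets of words which is invariant under the automorphisms of
the tree has a homogeneous set with `n + 1` elements, if every 2-colouring of the `r`-subsets of
`{0, …, m - 1}` has one with `n` elements. -/
theorem upper {K m r n : ℕ} (hK : 2 ≤ K)
    (hA : ∀ χ : Finset ℕ → Bool, ∃ A ⊆ range m, A.card = n ∧ ∃ b : Bool, ∀ B ⊆ A, B.card = r →
      χ B = b)
    (col : Finset (Fin m → Fin K) → Bool)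
    (hcol : ∀ g ∈ TreeAut K m, ∀ e : Finset (Fin m → Fin K), e.card = r + 1 →
      col (e.map g.toEmbedding) = col e) :
    ∃ S : Finset (Fin m → Fin K), S.card = n + 1 ∧ ∃ b : Bool, ∀ e ⊆ S, e.card = r + 1 →
      col e = b := by
  classical
  let a : Fin K := ⟨0, by omega⟩
  let b : Fin K := ⟨1, by omega⟩
  have hab : a ≠ b := by
    intro h
    have := congrArg Fin.val h
    simp [a, b] at this
  let p : ℕ → (Fin m → Fin K) := fun j => pt a b j
  obtain ⟨A, hAm, hAn, c, hc⟩ := hA (fun B => col ((insert m B).image p))
  have hlt : ∀ x ∈ A, x < m := fun x hx => mem_range.1 (hAm hx)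
  have hinj : Set.InjOn p (↑(insert m A) : Set ℕ) := by
    intro x hx y hy hxy
    rw [mem_coe, mem_insert] at hx hy
    refine pt_inj hab ?_ ?_ hxy
    · rcases hx with h | h
      · exact h.le
      · exact (hlt x h).le
    · rcases hy with h | h
      · exact h.le
      · exact (hlt y h).le
  have hmA : m ∉ A := fun h => lt_irrefl _ (hlt m h)
  refine ⟨(insert m A).image p, ?_, c, ?_⟩
  · rw [card_image_of_injOn hinj, card_insert_of_notMem hmA, hAn]
  · intro e he hec
    obtain ⟨B, hB, rfl⟩ := Finset.subset_image_iff.1 he
    have hBc : B.card = r + 1 := by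
      rw [← hec, card_image_of_injOn]
      exact hinj.mono (by exact_mod_cast hB)
    have hBne : B.Nonempty := card_pos.1 (by omega)
    by_cases hmB : m ∈ B
    · rw [← Finset.insert_erase hmB]
      apply hc
      · intro x hx
        rw [mem_erase] at hx
        exact (mem_insert.1 (hB hx.2)).resolve_left hx.1
      · rw [card_erase_of_mem hmB]; omega
    · have hBA : B ⊆ A := fun x hx => (mem_insert.1 (hB hx)).resolve_left
        (fun h => hmB (h ▸ hx))
      set j := B.max' hBne with hj
      have hjB : j ∈ B := max'_mem _ _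
      have hjm : j < m := hlt j (hBA hjB)
      rw [← hcol (togglePerm a b j) (togglePerm_mem a b j) _ hec]
      have h1 : (B.image p).map (togglePerm a b j).toEmbedding =
          (insert m (B.erase j)).image p := by
        rw [map_eq_image]
        conv_lhs => rw [← Finset.insert_erase hjB]
        rw [image_insert, image_insert, image_insert]
        congr 1
        · exact toggle_pt_self a b
        · rw [image_image]
          apply image_congr
          intro x hx
          rw [mem_coe, mem_erase] at hx
          exact toggle_pt_lt hab hjm (lt_of_le_of_ne (le_max' _ _ hx.2) hx.1)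
      rw [h1]
      apply hc
      · exact (erase_subset _ _).trans hBA
      · rw [card_erase_of_mem hjB]; omega

end Pool.Agent.TH772.SY
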